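import Pool.Agent.TH494.J1511
import Pool.Agent.TH881.RG.R3
import Pool.Agent.TH881.RG.R1a

/-! Sets of primes of relative density near one: sums with one restricted summand, the example and the two-sided law. -/

set_option autoImplicit false

namespace Pool.Agent.X15.RG

open Finset Filter Topology
open Pool.Agent.TH881 Pool.Agent.TH881.RG Pool.Agent.TH494.RG
open Pool.Agent.H373R2.T7

lemma dens_one (hPC : StPC) (w : ℕ) (hw : 2 ≤ w) (C : Finset (ZMod (Wp w)))
    (hC : ∀ a : ZMod (Wp w), IsUnit a → IsUnit (2 - a) → a ∈ C) :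
    1 / (Wp w : ℝ) ≤
      lowerDensity {n | Even n ∧ n ∉ oneSum {p : ℕ | (p : ZMod (Wp w)) ∉ C}} := by
  classical
  have hW2 : 2 ∣ Wp w := (prime_dvd_Wp Nat.prime_two).2 hw
  have hW : 2 ≤ Wp w := Nat.le_of_dvd (Wp_pos w) hW2
  -- the exceptional set
  have hsub : ∀ N : ℕ, ((Icc 1 N).filter (fun n : ℕ => (n : ZMod (Wp w)) = 2)).card ≤
      cnt {n | Even n ∧ n ∉ oneSum {p : ℕ | (p : ZMod (Wp w)) ∉ C}} N +
      ((range (w + 1)).biUnion (fun l => ((Icc 1 N).filter Nat.Prime).image (fun p => l + p))).card := by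
    intro N
    apply card_le_cnt _ _ _ _ (filter_subset _ _)
    intro n hn
    rw [mem_filter, mem_Icc] at hn
    by_cases hex : ∃ l p : ℕ, l ≤ w ∧ p.Prime ∧ l + p = n
    · right
      obtain ⟨l, p, h1, h2, h3⟩ := hex
      rw [mem_biUnion]
      refine ⟨l, mem_range.2 (by omega), ?_⟩
      rw [mem_image]
      refine ⟨p, ?_, h3⟩
      rw [mem_filter, mem_Icc]
      exact ⟨⟨h2.pos, by omega⟩, h2⟩
    · left
      refine ⟨?_, ?_⟩
      · have h1 : ((n : ℕ) : ZMod (Wp w)) = ((2 : ℕ) : ZMod (Wp w)) := by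
          rw [hn.2]; norm_num
        rw [ZMod.natCast_eq_natCast_iff] at h1
        have h2 : n ≡ 2 [MOD 2] := h1.of_dvd hW2
        rw [Nat.even_iff]
        exact h2
      · rintro ⟨p, q, ⟨hp1, hp2⟩, hq1, hpq⟩
        have hpw : w < p := by
          by_contra h
          exact hex ⟨p, q, by omega, hq1, hpq⟩
        have hqw : w < q := by
          by_contra h
          exact hex ⟨q, p, by omega, hp1, by omega⟩
        have hup : IsUnit (p : ZMod (Wp w)) := by
          rw [ZMod.isUnit_iff_coprime, Nat.Prime.coprime_iff_not_dvd hp1, prime_dvd_Wp hp1]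
          omega
        have huq : IsUnit (q : ZMod (Wp w)) := by
          rw [ZMod.isUnit_iff_coprime, Nat.Prime.coprime_iff_not_dvd hq1, prime_dvd_Wp hq1]
          omega
        have hq3 : (q : ZMod (Wp w)) = 2 - p := by
          rw [← hn.2, ← hpq]
          push_cast
          ring
        rw [hq3] at huq
        exact hp2 (hC _ hup huq)
  have key : ∀ ε : ℝ, 0 < ε → 1 / (Wp w : ℝ) - ε ≤
      lowerDensity {n | Even n ∧ n ∉ oneSum {p : ℕ | (p : ZMod (Wp w)) ∉ C}} := by
    intro ε hε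
    apply le_of_eventually
    have hlin : ∀ᶠ N : ℕ in atTop, 1 ≤ ε / 2 * (N : ℝ) :=
      (tendsto_natCast_atTop_atTop.const_mul_atTop (by positivity)).eventually_ge_atTop _
    filter_upwards [primes_small hPC (ε / (2 * (w + 1))) (by positivity), hlin] with N h1 h2
    have h3 := hsub N
    have h4 : ((range (w + 1)).biUnion (fun l => ((Icc 1 N).filter Nat.Prime).image (fun p => l + p))).card ≤
        (w + 1) * ((Icc 1 N).filter Nat.Prime).card := by
      refine card_biUnion_le.trans ?_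
      calc ∑ l ∈ range (w + 1), (((Icc 1 N).filter Nat.Prime).image (fun p => l + p)).card ≤
          ∑ l ∈ range (w + 1), ((Icc 1 N).filter Nat.Prime).card := sum_le_sum fun l _ => card_image_le
        _ = _ := by rw [sum_const, card_range, smul_eq_mul]
    have h5 := class_two (Wp w) N hW
    have h6 : (((Icc 1 N).filter (fun n : ℕ => (n : ZMod (Wp w)) = 2)).card : ℝ) ≤
        (cnt {n | Even n ∧ n ∉ oneSum {p : ℕ | (p : ZMod (Wp w)) ∉ C}} N : ℝ) +
          ((w : ℝ) + 1) * (((Icc 1 N).filter Nat.Prime).card : ℝ) := by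
      have h7 : ((Icc 1 N).filter (fun n : ℕ => (n : ZMod (Wp w)) = 2)).card ≤
        cnt {n | Even n ∧ n ∉ oneSum {p : ℕ | (p : ZMod (Wp w)) ∉ C}} N +
          (w + 1) * ((Icc 1 N).filter Nat.Prime).card := by
        refine h3.trans ?_
        exact Nat.add_le_add_left h4 _
      exact_mod_cast h7
    have h8 : ((w : ℝ) + 1) * (((Icc 1 N).filter Nat.Prime).card : ℝ) ≤ ε / 2 * N := by
      calc ((w : ℝ) + 1) * (((Icc 1 N).filter Nat.Prime).card : ℝ) ≤
          ((w : ℝ) + 1) * (ε / (2 * (w + 1)) * N) := by gcongr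
        _ = _ := by field_simp
    have h9 : (1 / (Wp w : ℝ) - ε) * N = (N : ℝ) / Wp w - ε * N := by ring
    rw [h9]
    linarith
  apply le_of_forall_pos_le_add
  intro ε hε
  linarith [key ε hε]

theorem example_one (hPC : StPC) (δ : ℝ) (hδ : 0 < δ) : ∃ η0 : ℝ, 0 < η0 ∧ ∀ η : ℝ, 0 < η → η ≤ η0 →
    ∃ A : Set ℕ, 1 - η ≤ relLower A ∧
      Real.exp (-Real.exp ((2 * (C2 * Real.exp (-Real.eulerMascheroniConstant)) + δ) / η)) ≤
        lowerDensity {n | Even n ∧ n ∉ oneSum A} := by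
  classical
  obtain ⟨η0, hη0, h0⟩ := choice (δ / 2) (by positivity)
  refine ⟨η0, hη0, fun η hη hηle => ?_⟩
  obtain ⟨y, hy2, hyD, hyL⟩ := h0 (η / 2) (by positivity) (by linarith)
  have hφ := totient_Wp_pos y
  set S : Finset (ZMod (Wp y)) :=
    univ.filter (fun a : ZMod (Wp y) => IsUnit a ∧ IsUnit (2 - a)) with hS
  have hwt : (S.card : ℝ) / Nat.totient (Wp y) = om y := by
    rw [← wt_two y hy2]
    unfold wt
    congr 3
  refine ⟨{p : ℕ | (p : ZMod (Wp y)) ∉ S}, ?_, ?_⟩
  · have h1 := relLower_ge hPC y S (fun a ha => (mem_filter.1 ha).2.1)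
    have h2 : (S.card : ℝ) / Nat.totient (Wp y) ≤ η := by
      rw [hwt]
      have h3 : om y / 2 ≤ DD y := by
        unfold DD
        have : (0 : ℝ) ≤ 1 / (Nat.totient (Wp y) : ℝ) := by positivity
        linarith
      linarith
    linarith
  · have h1 := dens_one hPC y hy2 S (by
      intro a ha hb
      rw [hS, mem_filter]
      exact ⟨mem_univ _, ha, hb⟩)
    refine le_trans ?_ h1
    have hW2 : 2 ≤ Wp y := Nat.le_of_dvd (Wp_pos y) ((prime_dvd_Wp Nat.prime_two).2 (by omega))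
    have hW2R : (2 : ℝ) ≤ Wp y := by exact_mod_cast hW2
    have hlogW : 0 < Real.log (Wp y) := Real.log_pos (by linarith)
    have h2 : Real.log (Real.log (Wp y)) ≤
        (2 * (C2 * Real.exp (-Real.eulerMascheroniConstant)) + δ) / η := by
      rw [le_div_iff₀ hη]
      linarith
    have h3 : Real.log (Wp y) ≤
        Real.exp ((2 * (C2 * Real.exp (-Real.eulerMascheroniConstant)) + δ) / η) := by
      rw [← Real.log_le_iff_le_exp hlogW]
      exact h2
    rw [Real.exp_neg, one_div]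
    apply inv_anti₀ (by linarith)
    rw [← Real.log_le_iff_le_exp (by linarith)]
    exact h3

/-- the two-sided law -/
theorem law_one (δ : ℝ) (hδ : 0 < δ) : ∃ η0 : ℝ, 0 < η0 ∧ ∀ η : ℝ, 0 < η → η ≤ η0 →
    (∀ A : Set ℕ, 1 - η ≤ relLower A →
      upperDensity {n | Even n ∧ n ∉ oneSum A} ≤
        Real.exp (-Real.exp ((2 * (C2 * Real.exp (-Real.eulerMascheroniConstant)) - δ) / η))) ∧
    ∃ A : Set ℕ, 1 - η ≤ relLower A ∧
      Real.exp (-Real.exp ((2 * (C2 * Real.exp (-Real.eulerMascheroniConstant)) + δ) / η)) ≤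
        lowerDensity {n | Even n ∧ n ∉ oneSum A} := by
  obtain ⟨η1, h1, H1⟩ := one_upper stPC stBil δ hδ
  obtain ⟨η2, h2, H2⟩ := example_one stPC δ hδ
  refine ⟨min η1 η2, lt_min h1 h2, fun η hη hηle => ⟨H1 η hη (hηle.trans (min_le_left _ _)),
    H2 η hη (hηle.trans (min_le_right _ _))⟩⟩

end Pool.Agent.X15.RG
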